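import Pool.Agent.Helper50.BP.St

/-!
PROJECT BP, module DT: parameters, `v` of order three.
-/

set_option autoImplicit false

namespace Pool.Agent.Helper22.BP

open Pool.Agent.Helper43.GD Pool.Agent.Helper73.BG Pool.Agent.Helper50.BP

theorem hDT (hGNV : StGNV) (hXK : StXK) (hCP : StCP) : StDT := by
  intro p hp a b hab ha1 ha2 hb
  have hp7 : 7 ≤ p := by
    have h1 : 2 ≤ 2 ^ a := by
      calc 2 = 2 ^ 1 := by norm_num
        _ ≤ 2 ^ a := Nat.pow_le_pow_right (by norm_num) ha1
    have h2 : 3 ≤ 3 ^ b := by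
      calc 3 = 3 ^ 1 := by norm_num
        _ ≤ 3 ^ b := Nat.pow_le_pow_right (by norm_num) hb
    have h3 : 2 * 3 ≤ 2 ^ a * 3 ^ b := Nat.mul_le_mul h1 h2
    omega
  have hcard : Nat.card (GaloisField p 1) = p := by
    rw [GaloisField.card p 1 one_ne_zero, pow_one]
  have hfin : Finite (GaloisField p 1) := by
    apply Nat.finite_of_card_ne_zero
    rw [hcard]
    omega
  have hcu : Nat.card (GaloisField p 1)ˣ = p - 1 := by
    rw [Nat.card_units, hcard]
  have hchar : ∀ m : ℕ, (m : GaloisField p 1) = 0 ↔ p ∣ m := fun m =>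
    CharP.cast_eq_zero_iff (GaloisField p 1) p m
  have h20 : (2 : GaloisField p 1) ≠ 0 := by
    intro h
    have h1 := (hchar 2).1 (by exact_mod_cast h)
    have := Nat.le_of_dvd (by norm_num) h1
    omega
  -- the element of order three
  have h3d : 3 ∣ Nat.card (GaloisField p 1)ˣ := by
    rw [hcu, hab]
    exact (dvd_pow_self 3 (by omega)).mul_left _
  obtain ⟨v, hv⟩ := exists_prime_orderOf_dvd_card' 3 h3d
  have hv1 : v ≠ 1 := by
    intro h
    rw [h, orderOf_one] at hv
    omega
  have hv3 : v ^ 3 = 1 := by rw [← hv]; exact pow_orderOf_eq_one v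
  obtain ⟨x, k, l, h, h1, hk1, hl1, hx, hxk, hxl, hxh, hg⟩ := hXK (GaloisField p 1) h20 v hv1
  have h23 : 2 * h ∣ 3 * k := by
    rw [← hx, orderOf_dvd_iff_pow_eq_one, mul_comm, pow_mul, hxk, hv3]
  have hxp : x ^ (2 * h) = 1 := by rw [← hx]; exact pow_orderOf_eq_one x
  have h2p : 2 * h ∣ 2 ^ a * 3 ^ b := by
    rw [← hab, ← hcu, ← hx]
    exact orderOf_dvd_natCard x
  -- the three are not all divisible
  have hno : ∀ s : ℕ, s.Prime → s ∣ k → s ∣ l → s ∣ h → False := by
    intro s hs h1 h2 h3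
    have := Nat.dvd_gcd (Nat.dvd_gcd h1 h2) h3
    rw [hg] at this
    exact hs.one_lt.ne' (Nat.dvd_one.1 this)
  have hcond : ∀ s : ℕ, s.Prime → s ∣ 2 * h → s ∣ k + l → ¬ s ∣ h + 3 * k := by
    intro s hs hs1 hs2 hs3
    by_cases hsk : s ∣ k
    · have hsl : s ∣ l := (Nat.dvd_add_right hsk).1 hs2
      have hsh : s ∣ h := (Nat.dvd_add_left (hsk.mul_left 3)).1 hs3
      exact hno s hs hsk hsl hsh
    · have hs4 : s ∣ 3 * k := hs1.trans h23
      have hs5 : s ∣ 3 := (hs.dvd_mul.1 hs4).resolve_right hsk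
      have hs6 : s = 3 := (Nat.prime_dvd_prime_iff_eq hs Nat.prime_three).1 hs5
      subst hs6
      obtain ⟨c, hc⟩ := hs1
      have hc3 : ¬ 3 ∣ c := by
        intro hc3
        have h9 : 3 * 3 ∣ 3 * k := by
          refine Dvd.dvd.trans ?_ h23
          rw [hc]
          exact Nat.mul_dvd_mul_left 3 hc3
        exact hsk (Nat.dvd_of_mul_dvd_mul_left (by norm_num) h9)
      have hc4 : c ∣ 4 := by
        have e1 : c ∣ 2 ^ a * 3 ^ b := Dvd.dvd.trans ⟨3, by rw [hc]; ring⟩ h2p
        have e2 : Nat.Coprime c (3 ^ b) :=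
          Nat.Coprime.pow_right b ((Nat.Prime.coprime_iff_not_dvd Nat.prime_three).2 hc3).symm
        have e3 : c ∣ 2 ^ a := e2.dvd_of_dvd_mul_right e1
        exact e3.trans (by
          have : (4 : ℕ) = 2 ^ 2 := by norm_num
          rw [this]
          exact Nat.pow_dvd_pow 2 ha2)
      obtain ⟨e, he⟩ := hs2
      -- in the field
      have hK : (x : GaloisField p 1) ^ (2 * (k + l)) = -3 := by
        have hvK : ((v : (GaloisField p 1)ˣ) : GaloisField p 1) ^ 3 = 1 := by
          rw [← Units.val_pow_eq_pow_val, hv3, Units.val_one]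
        have hvne : ((v : (GaloisField p 1)ˣ) : GaloisField p 1) - 1 ≠ 0 := by
          intro h0
          apply hv1
          apply Units.ext
          rw [Units.val_one]
          exact sub_eq_zero.1 h0
        have hvq : ((v : (GaloisField p 1)ˣ) : GaloisField p 1) ^ 2 + v + 1 = 0 := by
          apply mul_left_cancel₀ hvne
          rw [mul_zero]
          linear_combination hvK
        have hxkK : (x : GaloisField p 1) ^ k = v := by
          rw [← Units.val_pow_eq_pow_val, hxk]
        have hxlK : (x : GaloisField p 1) ^ l = 1 - v := by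
          rw [← hxkK]
          linear_combination hxl
        rw [show 2 * (k + l) = (k + l) * 2 by ring, pow_mul, pow_add, hxkK, hxlK]
        linear_combination (((v : (GaloisField p 1)ˣ) : GaloisField p 1) ^ 2 - 3 * v + 3) * hvq
      have hK2 : (-3 : GaloisField p 1) ^ c = 1 := by
        rw [← hK, ← pow_mul, he]
        have e1 : 2 * (3 * e) * c = 2 * h * (2 * e) := by rw [hc]; ring
        rw [e1, pow_mul, ← Units.val_pow_eq_pow_val, hxp, Units.val_one, one_pow]
      obtain ⟨c', hc'⟩ := hc4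
      have hK3 : (-3 : GaloisField p 1) ^ 4 = 1 := by
        rw [hc', pow_mul, hK2, one_pow]
      have h80 : ((80 : ℕ) : GaloisField p 1) = 0 := by
        push_cast
        linear_combination hK3
      have hp80 := (hchar 80).1 h80
      have hp80' : p ∣ 2 ^ 4 * 5 := by norm_num; exact hp80
      rcases (Nat.Prime.dvd_mul hp.out).1 hp80' with h5 | h5
      · have := (Nat.prime_dvd_prime_iff_eq hp.out Nat.prime_two).1 (hp.out.dvd_of_dvd_pow h5)
        omega
      · have := Nat.le_of_dvd (by norm_num) h5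
        omega
  obtain ⟨j, hj1, hj2⟩ := hCP l k h h1 hg hcond
  refine ⟨l + 2 * h * j, k, h, ⟨h1, Nat.prime_three, by norm_num, h23, hj2, hj1⟩, x, hxh, ?_, ?_⟩
  · rw [pow_add, pow_mul, ← Units.val_pow_eq_pow_val x (2 * h), hxp, Units.val_one, one_pow,
      mul_one]
    exact hxl
  · exact hGNV p 1 le_rfl v x k hxk (fun d hd1 hd2 => by omega)

end Pool.Agent.Helper22.BP
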